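import Pool.Agent.Helper28.HD.Defs

/-!
# MP_364488_co, module M1: density bounds for families of paths
-/

namespace Helper52.HD

open Pool.Agent.Helper28.HD

variable {V : Type}

open Classical in
/-- Selecting a small set `Z` such that many vertices outside `Z` have `T` neighbours in `Z`. -/
theorem exists_Z (X : Finset V) (R : V → V → Prop) (d T : ℕ) (hT : 1 ≤ T) (hd : 16 * T ≤ d)
    (hdeg : ∀ w ∈ X, d ≤ (X.filter (fun z => R w z)).card) :
    ∃ Z ⊆ X, d * Z.card ≤ 4 * T * X.card ∧
      X.card ≤ 4 * ((X \ Z).filter (fun w => T ≤ (Z.filter (fun z => R w z)).card)).card := by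
  set Φ : Finset V → ℕ := fun Z =>
    4 * ∑ w ∈ X, (T - (Z.filter (fun z => R w z)).card) + d * Z.card with hΦ
  obtain ⟨Z, hZ, hmin⟩ := Finset.exists_min_image X.powerset Φ ⟨∅, by simp⟩
  rw [Finset.mem_powerset] at hZ
  have h0 : Φ Z ≤ 4 * T * X.card := by
    have := hmin ∅ (by simp)
    refine this.trans (le_of_eq ?_)
    simp only [hΦ, Finset.filter_empty, Finset.card_empty, Nat.sub_zero, Finset.sum_const,
      smul_eq_mul]
    ring
  have h1 : d * Z.card ≤ 4 * T * X.card := by
    refine le_trans ?_ h0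
    simp only [hΦ]
    omega
  refine ⟨Z, hZ, h1, ?_⟩
  set B := X.filter (fun w => (Z.filter (fun z => R w z)).card < T) with hB
  have hBcard : 2 * B.card ≤ X.card := by
    by_contra hcon
    push Not at hcon
    have hBpos : 0 < B.card := by omega
    -- neighbours outside `Z`
    have hout : ∀ w ∈ B, d + 1 ≤ 2 * ((X \ Z).filter (fun z => R w z)).card := by
      intro w hw
      rw [hB, Finset.mem_filter] at hw
      have h2 := hdeg w hw.1
      have h3 : (X.filter (fun z => R w z)).card ≤ (Z.filter (fun z => R w z)).card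
          + ((X \ Z).filter (fun z => R w z)).card := by
        refine le_trans (Finset.card_le_card ?_) (Finset.card_union_le _ _)
        intro z hz
        rw [Finset.mem_filter] at hz
        rw [Finset.mem_union, Finset.mem_filter, Finset.mem_filter, Finset.mem_sdiff]
        by_cases hzZ : z ∈ Z
        · exact Or.inl ⟨hzZ, hz.2⟩
        · exact Or.inr ⟨⟨hz.1, hzZ⟩, hz.2⟩
      omega
    have hz : ∃ z ∈ X \ Z, d < 4 * (B.filter (fun w => R w z)).card := by
      by_contra hcon2
      push Not at hcon2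
      have hdc : ∑ w ∈ B, ((X \ Z).filter (fun z => R w z)).card
          = ∑ z ∈ X \ Z, (B.filter (fun w => R w z)).card := by
        have := Finset.sum_card_bipartiteAbove_eq_sum_card_bipartiteBelow (s := B) (t := X \ Z) R
        simpa only [Finset.bipartiteAbove, Finset.bipartiteBelow] using this
      have h4 : (d + 1) * B.card ≤ 2 * ∑ w ∈ B, ((X \ Z).filter (fun z => R w z)).card := by
        rw [Finset.mul_sum, mul_comm, ← smul_eq_mul, ← Finset.sum_const]
        exact Finset.sum_le_sum hout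
      have h5 : 4 * ∑ z ∈ X \ Z, (B.filter (fun w => R w z)).card ≤ d * X.card := by
        rw [Finset.mul_sum]
        refine (Finset.sum_le_sum hcon2).trans ?_
        rw [Finset.sum_const, smul_eq_mul, mul_comm]
        exact Nat.mul_le_mul_left _ (Finset.card_le_card Finset.sdiff_subset)
      rw [hdc] at h4
      have h6 : d * X.card ≤ d * (2 * B.card) := Nat.mul_le_mul_left _ (by omega)
      nlinarith
    obtain ⟨z, hz1, hz2⟩ := hz
    rw [Finset.mem_sdiff] at hz1
    have hle : Φ Z ≤ Φ (insert z Z) := hmin _ (by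
      rw [Finset.mem_powerset]
      exact Finset.insert_subset hz1.1 hZ)
    have hcardins : (insert z Z).card = Z.card + 1 := Finset.card_insert_of_notMem hz1.2
    have hsum : ∑ w ∈ X, (T - ((insert z Z).filter (fun z => R w z)).card)
        + (B.filter (fun w => R w z)).card ≤ ∑ w ∈ X, (T - (Z.filter (fun z => R w z)).card) := by
      have hBf : (B.filter (fun w => R w z)).card = ∑ w ∈ X, (if w ∈ B ∧ R w z then 1 else 0) := by
        rw [Finset.card_filter, ← Finset.sum_filter_add_sum_filter_not X (fun w => w ∈ B)]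
        have e1 : X.filter (fun w => w ∈ B) = B := by
          ext w
          rw [Finset.mem_filter]
          constructor
          · exact fun h => h.2
          · intro h
            exact ⟨(Finset.mem_filter.1 (hB ▸ h)).1, h⟩
        have e2 : ∑ w ∈ X.filter (fun w => ¬ w ∈ B), (if w ∈ B ∧ R w z then 1 else 0) = 0 := by
          refine Finset.sum_eq_zero ?_
          intro w hw
          rw [Finset.mem_filter] at hw
          rw [if_neg (fun h => hw.2 h.1)]
        rw [e1, e2, add_zero]
        refine Finset.sum_congr rfl ?_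
        intro w hw
        simp [hw]
      rw [hBf, ← Finset.sum_add_distrib]
      refine Finset.sum_le_sum ?_
      intro w hw
      have hmono : (Z.filter (fun z => R w z)).card ≤ ((insert z Z).filter (fun z => R w z)).card :=
        Finset.card_le_card (Finset.filter_subset_filter _ (Finset.subset_insert _ _))
      split_ifs with hc
      · have hlt : (Z.filter (fun z => R w z)).card < T := by
          have h9 := hc.1
          rw [hB, Finset.mem_filter] at h9
          exact h9.2
        have hins : ((insert z Z).filter (fun z => R w z)).card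
            = (Z.filter (fun z => R w z)).card + 1 := by
          rw [Finset.filter_insert, if_pos hc.2, Finset.card_insert_of_notMem]
          intro h
          exact hz1.2 (Finset.mem_filter.1 h).1
        omega
      · omega
    simp only [hΦ, hcardins] at hle
    have : d * (Z.card + 1) = d * Z.card + d := by ring
    omega
  -- conclusion
  set W := (X \ Z).filter (fun w => T ≤ (Z.filter (fun z => R w z)).card) with hW
  have hcov : X ⊆ W ∪ B ∪ Z := by
    intro x hx
    simp only [Finset.mem_union, hW, hB, Finset.mem_filter, Finset.mem_sdiff]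
    by_cases h1 : x ∈ Z
    · exact Or.inr h1
    · by_cases h2 : T ≤ (Z.filter (fun z => R x z)).card
      · exact Or.inl (Or.inl ⟨⟨hx, h1⟩, h2⟩)
      · exact Or.inl (Or.inr ⟨hx, by omega⟩)
  have h2 : X.card ≤ W.card + B.card + Z.card := by
    refine (Finset.card_le_card hcov).trans ?_
    refine (Finset.card_union_le _ _).trans ?_
    have := Finset.card_union_le W B
    omega
  have h3 : 4 * Z.card ≤ X.card := by
    have h4 : 16 * T * Z.card ≤ 4 * T * X.card := (Nat.mul_le_mul_right _ hd).trans h1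
    have h5 : (4 * T) * (4 * Z.card) ≤ (4 * T) * X.card := by
      calc (4 * T) * (4 * Z.card) = 16 * T * Z.card := by ring
        _ ≤ 4 * T * X.card := h4
    exact Nat.le_of_mul_le_mul_left h5 (by omega)
  omega

open Classical in
/-- Either different vertices of `W` can be assigned different pairs of neighbours in `Z`, or
there is a 1-subdivision of a complete graph. -/
theorem pairs_or (Z : Finset V) (R : V → V → Prop) (T : ℕ) (W : Finset V)
    (hW : ∀ w ∈ W, T ≤ (Z.filter (fun z => R w z)).card) :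
    (∃ z1 z2 : V → V, (∀ w ∈ W, z1 w ∈ Z ∧ z2 w ∈ Z ∧ z1 w ≠ z2 w ∧ R w (z1 w) ∧ R w (z2 w)) ∧
      ∀ w ∈ W, ∀ w' ∈ W, w ≠ w' → s(z1 w, z2 w) ≠ s(z1 w', z2 w')) ∨
    (∃ (f : Fin T → V) (g : Fin T → Fin T → V), Function.Injective f ∧ (∀ i, f i ∈ Z) ∧
      (∀ i k, i < k → g i k ∈ W ∧ R (g i k) (f i) ∧ R (g i k) (f k)) ∧
      (∀ i k i' k', i < k → i' < k' → g i k = g i' k' → i = i' ∧ k = k')) := by
  induction W using Finset.induction_on with
  | empty => exact Or.inl ⟨id, id, by simp, by simp⟩
  | insert w W0 hw ih =>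
    rcases ih (fun w' hw' => hW w' (Finset.mem_insert_of_mem hw')) with h | h
    · obtain ⟨z1, z2, h1, h2⟩ := h
      by_cases hex : ∃ a ∈ Z, ∃ b ∈ Z, a ≠ b ∧ R w a ∧ R w b ∧
          ∀ w' ∈ W0, s(a, b) ≠ s(z1 w', z2 w')
      · obtain ⟨a, ha, b, hb, hab, hRa, hRb, hne⟩ := hex
        left
        refine ⟨Function.update z1 w a, Function.update z2 w b, ?_, ?_⟩
        · intro w' hw'
          rw [Finset.mem_insert] at hw'
          by_cases hww : w' = w
          · subst hww
            simp only [Function.update_self]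
            exact ⟨ha, hb, hab, hRa, hRb⟩
          · rw [Function.update_of_ne hww, Function.update_of_ne hww]
            exact h1 w' (hw'.resolve_left hww)
        · intro w' hw' w'' hw'' hne'
          rw [Finset.mem_insert] at hw' hw''
          by_cases hww : w' = w
          · subst hww
            have hww2 : w'' ≠ w' := fun h => hne' h.symm
            rw [Function.update_self, Function.update_self, Function.update_of_ne hww2,
              Function.update_of_ne hww2]
            exact hne w'' (hw''.resolve_left hww2)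
          · by_cases hww2 : w'' = w
            · subst hww2
              rw [Function.update_self, Function.update_self, Function.update_of_ne hww,
                Function.update_of_ne hww]
              exact (hne w' (hw'.resolve_left hww)).symm
            · rw [Function.update_of_ne hww, Function.update_of_ne hww,
                Function.update_of_ne hww2, Function.update_of_ne hww2]
              exact h2 w' (hw'.resolve_left hww) w'' (hw''.resolve_left hww2) hne'
      · right
        push Not at hex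
        obtain ⟨S, hS, hScard⟩ := Finset.exists_subset_card_eq
          (hW w (Finset.mem_insert_self w W0))
        obtain ⟨e⟩ : Nonempty (Fin T ≃ S) := ⟨(S.equivFinOfCardEq hScard).symm⟩
        have hf : ∀ i, (e i : V) ∈ Z ∧ R w (e i) := fun i =>
          Finset.mem_filter.1 (hS (e i).2)
        have hinj : Function.Injective (fun i => (e i : V)) :=
          Subtype.val_injective.comp e.injective
        have hch : ∀ i k : Fin T, ∃ w', i < k →
            (w' ∈ W0 ∧ s((e i : V), (e k : V)) = s(z1 w', z2 w')) := by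
          intro i k
          by_cases hik : i < k
          · obtain ⟨w', h3, h4⟩ := hex _ (hf i).1 _ (hf k).1 (fun h => hik.ne (hinj h)) (hf i).2
              (hf k).2
            exact ⟨w', fun _ => ⟨h3, h4⟩⟩
          · exact ⟨w, fun h => absurd h hik⟩
        choose g hg' using hch
        have hg := fun i k hik => (hg' i k hik).1
        have hg2 := fun i k hik => (hg' i k hik).2
        refine ⟨fun i => e i, g, hinj, fun i => (hf i).1, ?_, ?_⟩
        · intro i k hik
          refine ⟨Finset.mem_insert_of_mem (hg i k hik), ?_, ?_⟩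
          · have h3 := h1 _ (hg i k hik)
            have h4 := hg2 i k hik
            rw [Sym2.eq_iff] at h4
            change R (g i k) (e i : V)
            rcases h4 with h4 | h4
            · rw [h4.1]; exact h3.2.2.2.1
            · rw [h4.1]; exact h3.2.2.2.2
          · have h3 := h1 _ (hg i k hik)
            have h4 := hg2 i k hik
            rw [Sym2.eq_iff] at h4
            change R (g i k) (e k : V)
            rcases h4 with h4 | h4
            · rw [h4.2]; exact h3.2.2.2.2
            · rw [h4.2]; exact h3.2.2.2.1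
        · intro i k i' k' hik hik' heq
          have h4 := hg2 i k hik
          have h5 := hg2 i' k' hik'
          rw [heq, ← h5, Sym2.eq_iff] at h4
          rcases h4 with h4 | h4
          · exact ⟨hinj h4.1, hinj h4.2⟩
          · have e1 : i = k' := hinj h4.1
            have e2 : k = i' := hinj h4.2
            subst e1; subst e2
            exact absurd hik (not_lt.2 hik'.le)
    · right
      obtain ⟨f, g, h1, h2, h3, h4⟩ := h
      exact ⟨f, g, h1, h2, fun i k hik => ⟨Finset.mem_insert_of_mem (h3 i k hik).1,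
        (h3 i k hik).2⟩, h4⟩

/-! ### Paths along the members of a family -/

/-- Adjacency in the graph on `X` given by a family. -/
def FR {ι : Type} (s : ℕ) (P : ι → ℕ → V) (u v : V) : Prop :=
  ∃ i, s(P i 0, P i (s + 1)) = s(u, v)

theorem FR.symm {ι : Type} {s : ℕ} {P : ι → ℕ → V} {u v : V} (h : FR s P u v) : FR s P v u := by
  obtain ⟨i, hi⟩ := h
  exact ⟨i, hi.trans Sym2.eq_swap⟩

/-- A choice of oriented paths for all adjacent pairs. -/
structure IsE (G : SimpleGraph V) (s : ℕ) (X : Set V) (R : V → V → Prop) (E : V → V → ℕ → V) :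
    Prop where
  zero : ∀ u v, R u v → E u v 0 = u
  last : ∀ u v, R u v → E u v (s + 1) = v
  adj : ∀ u v, R u v → ∀ l, l ≤ s → G.Adj (E u v l) (E u v (l + 1))
  inner : ∀ u v, R u v → ∀ l, 1 ≤ l → l ≤ s → E u v l ∉ X
  inj : ∀ u v u' v', R u v → R u' v' → ∀ l m, 1 ≤ l → l ≤ s → 1 ≤ m → m ≤ s →
    E u v l = E u' v' m → s(u, v) = s(u', v') ∧ (u = u' → l = m)

theorem exists_E {G : SimpleGraph V} {s : ℕ} {X : Set V} {ι : Type} {P : ι → ℕ → V}
    (h : IsFam G s X P) : ∃ E : V → V → ℕ → V, IsE G s X (FR s P) E := by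
  classical
  have hch : ∀ u v, ∃ q : ℕ → V, FR s P u v → ∃ i, s(P i 0, P i (s + 1)) = s(u, v) ∧
      ((P i 0 = u ∧ P i (s + 1) = v ∧ ∀ l, q l = P i l) ∨
        (P i 0 = v ∧ P i (s + 1) = u ∧ ∀ l, q l = P i (s + 1 - l))) := by
    intro u v
    by_cases hR : FR s P u v
    · obtain ⟨i, hi⟩ := hR
      have hi2 := hi
      rw [Sym2.eq_iff] at hi2
      rcases hi2 with h2 | h2
      · exact ⟨P i, fun _ => ⟨i, hi, Or.inl ⟨h2.1, h2.2, fun _ => rfl⟩⟩⟩
      · exact ⟨fun l => P i (s + 1 - l), fun _ => ⟨i, hi, Or.inr ⟨h2.1, h2.2, fun _ => rfl⟩⟩⟩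
    · exact ⟨fun _ => u, fun h => absurd h hR⟩
  choose E hE using hch
  refine ⟨E, ⟨?_, ?_, ?_, ?_, ?_⟩⟩
  · intro u v hR
    obtain ⟨i, -, h1 | h1⟩ := hE u v hR
    · rw [h1.2.2]; exact h1.1
    · rw [h1.2.2]; exact h1.2.1
  · intro u v hR
    obtain ⟨i, -, h1 | h1⟩ := hE u v hR
    · rw [h1.2.2]; exact h1.2.1
    · rw [h1.2.2, Nat.sub_self]; exact h1.1
  · intro u v hR l hl
    obtain ⟨i, -, h1 | h1⟩ := hE u v hR
    · rw [h1.2.2, h1.2.2]; exact h.adj i l hl
    · rw [h1.2.2, h1.2.2]
      have h2 := h.adj i (s - l) (Nat.sub_le _ _)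
      have e1 : s - l + 1 = s + 1 - l := by omega
      have e2 : s - l = s + 1 - (l + 1) := by omega
      rw [e1, e2] at h2
      exact h2.symm
  · intro u v hR l hl1 hl2
    obtain ⟨i, -, h1 | h1⟩ := hE u v hR
    · rw [h1.2.2]; exact h.inner i l hl1 hl2
    · rw [h1.2.2]; exact h.inner i _ (by omega) (by omega)
  · intro u v u' v' hR hR' l m hl1 hl2 hm1 hm2 heq
    obtain ⟨i, hi, h1 | h1⟩ := hE u v hR <;> obtain ⟨j, hj, h2 | h2⟩ := hE u' v' hR' <;>
      rw [h1.2.2, h2.2.2] at heq <;>
      obtain ⟨hij, hlm⟩ := h.inj i j _ _ (by omega) (by omega) (by omega) (by omega) heq <;>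
      subst hij <;>
      refine ⟨hi.symm.trans hj, fun huu => ?_⟩
    · exact hlm
    · exact absurd (h1.1.trans (huu.trans h2.2.1.symm)) (h.ends_ne i)
    · exact absurd (h2.1.trans (huu.symm.trans h1.2.1.symm)) (h.ends_ne i)
    · omega

/-- Concatenation of the paths `a → w → b`. -/
def QQ (s : ℕ) (E : V → V → ℕ → V) (a w b : V) (l : ℕ) : V :=
  if l ≤ s + 1 then E a w l else E w b (l - (s + 1))

section QQ

variable {G : SimpleGraph V} {s : ℕ} {X Z : Set V} {R : V → V → Prop} {E : V → V → ℕ → V}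

theorem QQ_zero (h : IsE G s X R E) {a w b : V} (h1 : R a w) : QQ s E a w b 0 = a := by
  rw [QQ, if_pos (Nat.zero_le _)]
  exact h.zero _ _ h1

theorem QQ_mid (h : IsE G s X R E) {a w b : V} (h1 : R a w) : QQ s E a w b (s + 1) = w := by
  rw [QQ, if_pos le_rfl]
  exact h.last _ _ h1

theorem QQ_last (h : IsE G s X R E) {a w b : V} (h2 : R w b) :
    QQ s E a w b (2 * s + 1 + 1) = b := by
  rw [QQ, if_neg (by omega)]
  have : 2 * s + 1 + 1 - (s + 1) = s + 1 := by omega
  rw [this]
  exact h.last _ _ h2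

theorem QQ_adj (h : IsE G s X R E) {a w b : V} (h1 : R a w) (h2 : R w b) (l : ℕ)
    (hl : l ≤ 2 * s + 1) : G.Adj (QQ s E a w b l) (QQ s E a w b (l + 1)) := by
  rcases Nat.lt_trichotomy l (s + 1) with hl1 | hl1 | hl1
  · rw [QQ, if_pos hl1.le, QQ, if_pos (by omega)]
    exact h.adj _ _ h1 l (by omega)
  · subst hl1
    rw [QQ_mid h h1, QQ, if_neg (by omega)]
    have e : s + 1 + 1 - (s + 1) = 0 + 1 := by omega
    rw [e]
    have := h.adj _ _ h2 0 (Nat.zero_le _)
    rw [h.zero _ _ h2] at this
    exact this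
  · rw [QQ, if_neg (by omega), QQ, if_neg (by omega)]
    have e : l + 1 - (s + 1) = l - (s + 1) + 1 := by omega
    rw [e]
    exact h.adj _ _ h2 _ (by omega)

theorem QQ_inner (h : IsE G s X R E) {a w b : V} (h1 : R a w) (h2 : R w b) (l : ℕ)
    (hl1 : 1 ≤ l) (hl2 : l ≤ 2 * s + 1) : (l = s + 1 ∧ QQ s E a w b l = w) ∨
      (l ≠ s + 1 ∧ QQ s E a w b l ∉ X) := by
  rcases Nat.lt_trichotomy l (s + 1) with hl3 | hl3 | hl3
  · right
    refine ⟨by omega, ?_⟩
    rw [QQ, if_pos hl3.le]
    exact h.inner _ _ h1 l hl1 (by omega)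
  · left
    refine ⟨hl3, ?_⟩
    subst hl3
    exact QQ_mid h h1
  · right
    refine ⟨by omega, ?_⟩
    rw [QQ, if_neg (by omega)]
    exact h.inner _ _ h2 _ (by omega) (by omega)

/-- The key injectivity statement. -/
theorem QQ_inj (h : IsE G s X R E) {a w b a' w' b' : V} (h1 : R a w) (h2 : R w b)
    (h1' : R a' w') (h2' : R w' b') (ha : a ∈ Z) (hb : b ∈ Z) (ha' : a' ∈ Z) (hb' : b' ∈ Z)
    (hw' : w' ∉ Z) (hwX : w ∈ X) (hwX' : w' ∈ X) (l m : ℕ)
    (hl1 : 1 ≤ l) (hl2 : l ≤ 2 * s + 1) (hm1 : 1 ≤ m) (hm2 : m ≤ 2 * s + 1)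
    (heq : QQ s E a w b l = QQ s E a' w' b' m) :
    w = w' ∧ (a = a' → b = b' → a ≠ b → l = m) := by
  rcases QQ_inner h h1 h2 l hl1 hl2 with h3 | h3 <;>
    rcases QQ_inner h h1' h2' m hm1 hm2 with h4 | h4
  · refine ⟨?_, fun _ _ _ => h3.1.trans h4.1.symm⟩
    rw [← h3.2, ← h4.2, heq]
  · exfalso
    rw [← heq, h3.2] at h4
    exact h4.2 hwX
  · exfalso
    rw [heq, h4.2] at h3
    exact h3.2 hwX'
  · have key : ∀ x y : V, x ∈ Z → y ∈ Z → s(x, w) = s(y, w') → x = y ∧ w = w' := by
      intro x y hx hy hxy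
      rw [Sym2.eq_iff] at hxy
      rcases hxy with h5 | h5
      · exact h5
      · exact absurd (h5.1 ▸ hx) hw'
    by_cases hls : l ≤ s + 1 <;> by_cases hms : m ≤ s + 1
    · rw [QQ, if_pos hls, QQ, if_pos hms] at heq
      obtain ⟨h5, h6⟩ := h.inj _ _ _ _ h1 h1' l m hl1 (by omega) hm1 (by omega) heq
      exact ⟨(key _ _ ha ha' h5).2, fun haa _ _ => h6 haa⟩
    · rw [QQ, if_pos hls, QQ, if_neg hms] at heq
      obtain ⟨h5, h6⟩ := h.inj _ _ _ _ h1 h2' l _ hl1 (by omega) (by omega) (by omega) heq
      rw [Sym2.eq_swap (a := w')] at h5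
      obtain ⟨h7, h8⟩ := key _ _ ha hb' h5
      refine ⟨h8, fun haa hbb hab => ?_⟩
      exact absurd (h7.trans hbb.symm) hab
    · rw [QQ, if_neg hls, QQ, if_pos hms] at heq
      obtain ⟨h5, h6⟩ := h.inj _ _ _ _ h2 h1' _ m (by omega) (by omega) hm1 (by omega) heq
      rw [Sym2.eq_swap (a := w)] at h5
      obtain ⟨h7, h8⟩ := key _ _ hb ha' h5
      refine ⟨h8, fun haa hbb hab => ?_⟩
      exact absurd (haa.trans h7.symm) hab
    · rw [QQ, if_neg hls, QQ, if_neg hms] at heq
      obtain ⟨h5, h6⟩ := h.inj _ _ _ _ h2 h2' _ _ (by omega) (by omega) (by omega) (by omega) heq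
      rw [Sym2.eq_swap (a := w), Sym2.eq_swap (a := w')] at h5
      obtain ⟨h7, h8⟩ := key _ _ hb hb' h5
      refine ⟨h8, fun haa hbb hab => ?_⟩
      have := h6 h8
      omega

end QQ

open Classical in
/-- Passing to a subset of large minimum degree. -/
theorem min_degree {G : SimpleGraph V} {s : ℕ} {X : Finset V} {ι : Type} [Fintype ι]
    {P : ι → ℕ → V} (h : IsFam G s (X : Set V) P) (d : ℕ)
    (hd : d * X.card ≤ Fintype.card ι) (hX : X.Nonempty) :
    ∃ X' ⊆ X, X'.Nonempty ∧ ∀ w ∈ X', d ≤ (X'.filter (fun z => FR s P w z)).card := by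
  set e : Finset V → Finset ι := fun Y =>
    Finset.univ.filter (fun i => P i 0 ∈ Y ∧ P i (s + 1) ∈ Y) with he
  have hXe : e X = Finset.univ := by
    rw [he]
    simp only [Finset.filter_eq_self]
    intro i _
    exact ⟨by simpa using h.left_mem i, by simpa using h.right_mem i⟩
  obtain ⟨X', hX', hmin⟩ := Finset.exists_min_image
    (X.powerset.filter (fun Y => Y.Nonempty ∧ d * Y.card ≤ (e Y).card)) (fun Y => Y.card)
    ⟨X, by
      rw [Finset.mem_filter, Finset.mem_powerset, hXe, Finset.card_univ]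
      exact ⟨subset_rfl, hX, hd⟩⟩
  rw [Finset.mem_filter, Finset.mem_powerset] at hX'
  obtain ⟨hsub, hne, hdens⟩ := hX'
  refine ⟨X', hsub, hne, ?_⟩
  intro w hw
  -- edges at w
  set F : Finset ι := (e X').filter (fun i => P i 0 = w ∨ P i (s + 1) = w) with hF
  have hFcard : F.card ≤ (X'.filter (fun z => FR s P w z)).card := by
    refine Finset.card_le_card_of_injOn (fun i => if P i 0 = w then P i (s + 1) else P i 0) ?_ ?_
    · intro i hi
      simp only [hF, he, Finset.coe_filter, Finset.mem_filter, Finset.mem_univ, true_and,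
        Set.mem_ofPred_eq] at hi
      simp only [Finset.coe_filter, Set.mem_ofPred_eq]
      by_cases h1 : P i 0 = w
      · rw [if_pos h1]
        exact ⟨hi.1.2, ⟨i, by rw [h1]⟩⟩
      · rw [if_neg h1]
        refine ⟨hi.1.1, ⟨i, ?_⟩⟩
        rw [hi.2.resolve_left h1]
        exact Sym2.eq_swap
    · intro i hi i' hi' heq
      simp only [hF, he, Finset.coe_filter, Finset.mem_filter, Finset.mem_univ, true_and,
        Set.mem_ofPred_eq] at hi hi'
      by_contra hne'
      have hp := h.pairs i i' hne'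
      apply hp
      dsimp only at heq
      by_cases h1 : P i 0 = w <;> by_cases h2 : P i' 0 = w
      · rw [if_pos h1, if_pos h2] at heq
        rw [h1, h2, heq]
      · rw [if_pos h1, if_neg h2] at heq
        rw [h1, hi'.2.resolve_left h2, heq]
        exact Sym2.eq_swap
      · rw [if_neg h1, if_pos h2] at heq
        rw [h2, hi.2.resolve_left h1, heq]
        exact Sym2.eq_swap
      · rw [if_neg h1, if_neg h2] at heq
        rw [hi.2.resolve_left h1, hi'.2.resolve_left h2, heq]
  have hcov : (e X').card ≤ (e (X'.erase w)).card + F.card := by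
    refine le_trans (Finset.card_le_card ?_) (Finset.card_union_le _ _)
    intro i hi
    rw [Finset.mem_union]
    by_cases h1 : P i 0 = w ∨ P i (s + 1) = w
    · right
      rw [hF, Finset.mem_filter]
      exact ⟨hi, h1⟩
    · left
      push Not at h1
      simp only [he, Finset.mem_filter, Finset.mem_univ, true_and, Finset.mem_erase] at hi ⊢
      exact ⟨⟨h1.1, hi.1⟩, ⟨h1.2, hi.2⟩⟩
  have hcard : (X'.erase w).card = X'.card - 1 := Finset.card_erase_of_mem hw
  have hpos : 1 ≤ X'.card := Finset.card_pos.2 hne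
  -- the smaller set is not dense
  have hsmall : (e (X'.erase w)).card ≤ d * (X'.erase w).card := by
    by_contra hcon
    push Not at hcon
    have hne2 : (X'.erase w).Nonempty := by
      rw [Finset.nonempty_iff_ne_empty]
      intro h0
      rw [h0] at hcon
      simp [he] at hcon
    have := hmin (X'.erase w) (by
      rw [Finset.mem_filter, Finset.mem_powerset]
      exact ⟨(Finset.erase_subset _ _).trans hsub, hne2, hcon.le⟩)
    omega
  have hd2 : d * X'.card = d * (X'.card - 1) + d := by
    obtain ⟨k, hk⟩ := Nat.exists_eq_add_of_le hpos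
    rw [hk, Nat.add_sub_cancel_left]
    ring
  rw [hcard] at hsmall
  omega

theorem den_step (t : ℕ → ℕ) (j s c' : ℕ)
    (hc' : ∀ (V : Type) (G : SimpleGraph V), Excl G t →
      ∀ (X : Finset V) (ι : Type) [Fintype ι] (P : ι → ℕ → V), IsFam G (2 * s + 1) (X : Set V) P →
        (Fintype.card ι) ^ j ≤ c' * X.card ^ (j + 1))
    {V : Type} (G : SimpleGraph V) (hG : Excl G t) (X : Finset V) (ι : Type) [Fintype ι]
    (P : ι → ℕ → V) (h : IsFam G s (X : Set V) P) :
    (Fintype.card ι) ^ (j + 1) ≤ ((16 * t (2 * s + 1)) ^ (j + 1)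
      + 2 ^ (j + 1) * (4 ^ j * c' * (4 * t (2 * s + 1)) ^ (j + 1))) * X.card ^ (j + 1 + 1) := by
  classical
  set T := t (2 * s + 1) with hT
  have hT1 : 1 ≤ T := by
    by_contra hcon
    have hT0 : T = 0 := by omega
    apply hG (2 * s + 1)
    rw [← hT, hT0]
    exact ⟨fun i => i.elim0, fun i => i.elim0, fun i => i.elim0, fun i => i.elim0,
      fun i => i.elim0, fun i => i.elim0, fun i => i.elim0⟩
  rcases Finset.eq_empty_or_nonempty X with hX | hX
  · have : IsEmpty ι := ⟨fun i => by simpa [hX] using h.left_mem i⟩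
    rw [Fintype.card_eq_zero]
    simp
  have hn0 : 1 ≤ X.card := Finset.card_pos.2 hX
  set n0 := X.card with hn0def
  set e := Fintype.card ι with hedef
  set d := e / n0 with hddef
  have hde : d * n0 ≤ e := Nat.div_mul_le_self e n0
  have hed : e ≤ (d + 1) * n0 := by
    have := Nat.lt_div_mul_add (a := e) (b := n0) (by omega)
    rw [add_mul, one_mul]
    exact this.le
  rcases Nat.lt_or_ge d (16 * T) with hdT | hdT
  · have h1 : e ≤ 16 * T * n0 := hed.trans (Nat.mul_le_mul_right _ (by omega))
    calc e ^ (j + 1) ≤ (16 * T * n0) ^ (j + 1) := Nat.pow_le_pow_left h1 _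
      _ = (16 * T) ^ (j + 1) * n0 ^ (j + 1) := by rw [mul_pow]
      _ ≤ (16 * T) ^ (j + 1) * n0 ^ (j + 1 + 1) :=
          Nat.mul_le_mul_left _ (Nat.pow_le_pow_right hn0 (by omega))
      _ ≤ _ := by
          rw [add_mul]
          exact Nat.le_add_right _ _
  · have hd1 : 1 ≤ d := by omega
    obtain ⟨X', hX'X, hX'ne, hdeg⟩ := min_degree h d hde hX
    obtain ⟨Z, hZX', hZ1, hZ2⟩ := exists_Z X' (FR s P) d T hT1 hdT hdeg
    set W := (X' \ Z).filter (fun w => T ≤ (Z.filter (fun z => FR s P w z)).card) with hW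
    have hWX : ∀ w ∈ W, w ∈ X ∧ w ∉ Z := by
      intro w hw
      rw [hW, Finset.mem_filter, Finset.mem_sdiff] at hw
      exact ⟨hX'X hw.1.1, hw.1.2⟩
    have hZX : ∀ z ∈ Z, z ∈ X := fun z hz => hX'X (hZX' hz)
    obtain ⟨E, hE⟩ := exists_E h
    rcases pairs_or Z (FR s P) T W (fun w hw => by
      rw [hW, Finset.mem_filter] at hw; exact hw.2) with hA | hB
    · -- a (2s+1)-family on Z
      obtain ⟨z1, z2, hz, hzne⟩ := hA
      have hfam : IsFam G (2 * s + 1) (Z : Set V)
          (fun w : W => QQ s E (z1 w) (w : V) (z2 w)) := by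
        refine ⟨?_, ?_, ?_, ?_, ?_, ?_, ?_⟩
        · intro w
          rw [QQ_zero hE (hz w w.2).2.2.2.1.symm]
          exact (hz w w.2).1
        · intro w
          rw [QQ_last hE (hz w w.2).2.2.2.2]
          exact (hz w w.2).2.1
        · intro w
          rw [QQ_zero hE (hz w w.2).2.2.2.1.symm, QQ_last hE (hz w w.2).2.2.2.2]
          exact (hz w w.2).2.2.1
        · intro w l hl
          exact QQ_adj hE (hz w w.2).2.2.2.1.symm (hz w w.2).2.2.2.2 l hl
        · intro w l hl1 hl2
          rcases QQ_inner hE (hz w w.2).2.2.2.1.symm (hz w w.2).2.2.2.2 l hl1 hl2 with h1 | h1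
          · rw [h1.2]
            exact (hWX w w.2).2
          · intro h2
            exact h1.2 (hZX _ h2)
        · intro w w' l m hl1 hl2 hm1 hm2 heq
          have hkey := QQ_inj (Z := (Z : Set V)) hE (hz w w.2).2.2.2.1.symm (hz w w.2).2.2.2.2
            (hz w' w'.2).2.2.2.1.symm (hz w' w'.2).2.2.2.2 (hz w w.2).1 (hz w w.2).2.1
            (hz w' w'.2).1 (hz w' w'.2).2.1 (hWX w' w'.2).2 (hWX w w.2).1
            (hWX w' w'.2).1 l m hl1 hl2 hm1 hm2 heq
          have hww : w = w' := Subtype.ext hkey.1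
          subst hww
          exact ⟨rfl, hkey.2 rfl rfl (hz w w.2).2.2.1⟩
        · intro w w' hww
          rw [QQ_zero hE (hz w w.2).2.2.2.1.symm, QQ_last hE (hz w w.2).2.2.2.2,
            QQ_zero hE (hz w' w'.2).2.2.2.1.symm, QQ_last hE (hz w' w'.2).2.2.2.2]
          exact hzne w w.2 w' w'.2 (fun h => hww (Subtype.ext h))
      have hbound := hc' V G hG Z W _ hfam
      rw [Fintype.card_coe] at hbound
      set n := X'.card with hn
      have hn1 : 1 ≤ n := Finset.card_pos.2 hX'ne
      have hnn0 : n ≤ n0 := Finset.card_le_card hX'X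
      have h3 : n ^ j * d ^ (j + 1) ≤ n ^ j * (4 ^ j * c' * (4 * T) ^ (j + 1) * n) := by
        calc n ^ j * d ^ (j + 1) ≤ (4 * W.card) ^ j * d ^ (j + 1) :=
              Nat.mul_le_mul_right _ (Nat.pow_le_pow_left hZ2 _)
          _ = 4 ^ j * (W.card ^ j) * d ^ (j + 1) := by rw [mul_pow]
          _ ≤ 4 ^ j * (c' * Z.card ^ (j + 1)) * d ^ (j + 1) :=
              Nat.mul_le_mul_right _ (Nat.mul_le_mul_left _ hbound)
          _ = 4 ^ j * c' * (d * Z.card) ^ (j + 1) := by rw [mul_pow]; ring
          _ ≤ 4 ^ j * c' * (4 * T * n) ^ (j + 1) :=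
              Nat.mul_le_mul_left _ (Nat.pow_le_pow_left hZ1 _)
          _ = n ^ j * (4 ^ j * c' * (4 * T) ^ (j + 1) * n) := by
              rw [mul_pow (4 * T) n, pow_succ n]; ring
      have h4 : d ^ (j + 1) ≤ 4 ^ j * c' * (4 * T) ^ (j + 1) * n :=
        Nat.le_of_mul_le_mul_left h3 (pow_pos hn1 _)
      have h5 : e ≤ 2 * d * n0 := hed.trans (Nat.mul_le_mul_right _ (by omega))
      calc e ^ (j + 1) ≤ (2 * d * n0) ^ (j + 1) := Nat.pow_le_pow_left h5 _
        _ = 2 ^ (j + 1) * d ^ (j + 1) * n0 ^ (j + 1) := by rw [mul_pow, mul_pow]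
        _ ≤ 2 ^ (j + 1) * (4 ^ j * c' * (4 * T) ^ (j + 1) * n0) * n0 ^ (j + 1) :=
            Nat.mul_le_mul_right _ (Nat.mul_le_mul_left _ (h4.trans (Nat.mul_le_mul_left _ hnn0)))
        _ = 2 ^ (j + 1) * (4 ^ j * c' * (4 * T) ^ (j + 1)) * n0 ^ (j + 1 + 1) := by
            rw [pow_succ n0 (j + 1)]; ring
        _ ≤ _ := by
            rw [add_mul]
            exact Nat.le_add_left _ _
    · -- a subdivision
      exfalso
      obtain ⟨f, g, hf, hfZ, hg1, hg2⟩ := hB
      apply hG (2 * s + 1)
      refine ⟨f, fun i k => QQ s E (f i) (g i k) (f k), hf, ?_, ?_, ?_, ?_⟩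
      · intro i k hik
        exact ⟨QQ_zero hE (hg1 i k hik).2.1.symm, QQ_last hE (hg1 i k hik).2.2⟩
      · intro i k hik l hl
        exact QQ_adj hE (hg1 i k hik).2.1.symm (hg1 i k hik).2.2 l hl
      · intro i k hik l hl1 hl2 m
        change QQ s E (f i) (g i k) (f k) l ≠ f m
        rcases QQ_inner hE (hg1 i k hik).2.1.symm (hg1 i k hik).2.2 l hl1 hl2 with h1 | h1
        · rw [h1.2]
          intro h2
          exact (hWX _ (hg1 i k hik).1).2 (h2 ▸ hfZ m)
        · intro h2
          apply h1.2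
          rw [h2]
          exact hZX _ (hfZ m)
      · intro i k i' k' hik hik' l m hl1 hl2 hm1 hm2 heq
        have hkey := QQ_inj (Z := (Z : Set V)) hE (hg1 i k hik).2.1.symm (hg1 i k hik).2.2
          (hg1 i' k' hik').2.1.symm (hg1 i' k' hik').2.2 (hfZ i) (hfZ k) (hfZ i') (hfZ k')
          (hWX _ (hg1 i' k' hik').1).2 (hWX _ (hg1 i k hik).1).1 (hWX _ (hg1 i' k' hik').1).1
          l m hl1 hl2 hm1 hm2 heq
        obtain ⟨h1, h2⟩ := hg2 i k i' k' hik hik' hkey.1
        subst h1; subst h2
        exact ⟨rfl, rfl, hkey.2 rfl rfl (fun h => hik.ne (hf h))⟩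

/-- Module M1 of MP_364488_co. -/
theorem den (t : ℕ → ℕ) : DenBound t := by
  intro j hj
  induction j, hj using Nat.le_induction with
  | base =>
    intro s
    refine ⟨1, ?_⟩
    intro V G _ X ι _ P h
    classical
    rw [pow_one, one_mul]
    have : Fintype.card ι ≤ (X ×ˢ X).card := by
      rw [← Finset.card_univ]
      refine Finset.card_le_card_of_injOn (fun i => (P i 0, P i (s + 1))) ?_ ?_
      · intro i _
        simp only [Finset.coe_product, Set.mem_prod]
        exact ⟨h.left_mem i, h.right_mem i⟩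
      · intro i _ i' _ heq
        by_contra hne
        apply h.pairs i i' hne
        simp only [Prod.mk.injEq] at heq
        rw [heq.1, heq.2]
    rw [Finset.card_product] at this
    calc Fintype.card ι ≤ X.card * X.card := this
      _ = X.card ^ (1 + 1) := by ring
  | succ j hj ih =>
    intro s
    obtain ⟨c', hc'⟩ := ih (2 * s + 1)
    exact ⟨_, fun V G hG X ι _ P h => den_step t j s c' hc' G hG X ι P h⟩

end Helper52.HD
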